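import Pool.Agent.N978.BR.Final

/-!
# Families of varieties: bounded Brauer groups and the Tate conjecture for divisors, for 100 percent of
# the members, for all prime numbers `ℓ` at once

Let `X → U` be a smooth projective family over an open subset `U` of the projective line over `ℚ`, and
let `T_ℓ Br` be the quotient of `H²(ℤ_ℓ(1))` (modulo torsion) of the geometric generic fibre by the
classes of divisors, a free `ℤ_ℓ`-module of a rank `n` that does not depend on `ℓ`.

Theorem. Suppose that for ONE rational point `t₀` of `U` and ONE prime number `ℓ₀` there is one
element `σ` of the Galois group of `ℚ` (for instance one Frobenius element) such that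

* no eigenvalue of `σ` on `V_{ℓ₀} Br` is a root of unity, or
* (if `n` is odd, by the intersection form, at least one eigenvalue is `1` or `-1`) at most one
  eigenvalue of `σ` is a root of unity, and there is a closed point of the projective line at which the
  unipotent local monodromy on the generic transcendental lattice has no Jordan block of size one.

Then for every `η > 0` and every `d` there is a natural number `N = N(d) > 0` such that for all rational
points `t` of the projective line outside of a proportion at most `η` (ordered by height), for all
number fields `L` of degree at most `d` and for ALL prime numbers `ℓ`, the number `N` kills all elements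
of the divisible part of `Br(X_t ⊗ Qbar)(ℓ)` fixed by `Gal(L)`. (The rest of this group is the torsion
of `H³(ℤ_ℓ(1))`, finite and the same for all members.) So

* `Br(X_t ⊗ Qbar)^{Gal(L)}` is finite, and its exponent and order are bounded in terms of `d` and `η`
  only (uniform boundedness, in the sense of Várilly-Alvarado's conjecture, for all `ℓ` at once);
* the Tate conjecture for divisors holds for `X_t` over all number fields `L` and for ALL `ℓ`, and the
  geometric Néron-Severi groups of `X_t` and of the generic member have the same rank,

for 100 percent of the rational points `t`. For one `ℓ` at a time the second assertion is known, by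
Hilbert's irreducibility theorem, if the monodromy group has no invariants (Terasoma;
Cadoret-Tamagawa); but the exceptional sets depend on `ℓ`.

The second condition is met by families of surfaces with `p_g ≥ 2`: if there are `a` blocks of size
three and `2 b` blocks of size two, then `p_g = a + b` and `n = 3 a + 4 b`; for instance `p_g = 2`,
`n = 7` and blocks of the sizes `3, 2, 2`. The first condition can be checked by counting points on the
reduction of one member modulo one prime number.

The proof. The primes `p` modulo which `X_{t₀}` has a Frobenius polynomial on `Br` with no (at most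
one) root of unity among its roots have positive density. A sieve (`Pool.Agent.N978.BR.FS`,
helper787) gives a finite set of such primes with all `t` outside of a proportion `η` congruent to `t₀`
modulo two of them. The Frobenius elements of `X_t` at one of them, different from `ℓ`, have the same
characteristic polynomial as those of `X_{t₀}`, and a resultant with integral coefficients (helper293)
bounds the elements fixed by their powers. In the odd case they are, up to a bounded error, multiples
of one vector `v` with `(v, v)` not zero, and of bounded divisibility. A second set of primes, for which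
`t` meets the zeros of `C` (with bounded multiplicities, helper624), gives elements of the Galois group
acting as powers of the local monodromy. The fixed vectors of a unipotent isometry without blocks of
size one are isotropic, integrally up to a bounded denominator (helpers 216, 490), so that a multiple of
`v` cannot be fixed modulo a large power of `ℓ`.
-/

set_option autoImplicit false

namespace Pool.Agent.Results.MP_97f789_ag.BoundedBrauerGroups

open Polynomial Pool.Agent.Y114.TF Pool.Agent.N978.HP Pool.Agent.N978.BR

theorem result {Γ : Type} [Group Γ] [TopologicalSpace Γ] {n : ℕ}
    -- the family over `U` and the Tate modules of its Brauer groups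
    (s : Pt → Gal(AlgebraicClosure ℚ/ℚ) →* Γ) (m : ℕ) (D : MvPolynomial (Fin 2) ℤ)
    (P : ℕ → Pt → ℚ[X]) (τ : ∀ (ℓ : ℕ) [Fact ℓ.Prime], Γ →* Matrix (Fin n) (Fin n) ℤ_[ℓ])
    (h : BrauerFamily s m D P τ)
    -- one member, one prime number, one element of the Galois group
    (t₀ : Pt) (ht₀ : InU D t₀) (ℓ₀ : ℕ) [Fact ℓ₀.Prime] (σ : Gal(AlgebraicClosure ℚ/ℚ))
    (hσ : UnityEigenvaluesLE (rat (τ ℓ₀ (s t₀ σ))) 0 ∨
      (UnityEigenvaluesLE (rat (τ ℓ₀ (s t₀ σ))) 1 ∧
        -- the intersection form and the local monodromy at the zeros of `C`
        ∃ (J u : Matrix (Fin n) (Fin n) ℤ) (C : MvPolynomial (Fin 2) ℤ),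
          InvariantForm τ J ∧ NoBlockOfSizeOne u ∧ LocalMonodromy s m D C τ u)) :
    -- 100 percent of the members, all prime numbers, all number fields
    (AlmostAll fun t => InU D t ∧ ∀ d : ℕ, ∃ N : ℕ, 0 < N ∧
      ∀ Δ : Subgroup Gal(AlgebraicClosure ℚ/ℚ), Δ.index ≠ 0 → Δ.index ≤ d →
        KillsInvariants s τ t Δ N ∧ NoInvariants s τ t Δ) ∧
    -- uniform boundedness outside of any positive proportion
    ∀ η : ℝ, 0 < η → ∃ N : ℕ → ℕ, (∀ d, 0 < N d) ∧ FailsAtMost η fun t => InU D t ∧
      ∀ (d : ℕ) (Δ : Subgroup Gal(AlgebraicClosure ℚ/ℚ)), Δ.index ≠ 0 → Δ.index ≤ d →
        KillsInvariants s τ t Δ (N d) := by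
  have hm := main h ht₀ ℓ₀ σ hσ
  refine ⟨almostAll_of_failsAtMost fun η hη => ?_, hm⟩
  obtain ⟨N, hN, hF⟩ := hm η hη
  refine failsAtMost_mono hF fun t ht => ⟨ht.1, fun d => ⟨N d, hN d, fun Δ h0 hd => ?_⟩⟩
  exact ⟨ht.2 d Δ h0 hd, noInvariants (hN d) (ht.2 d Δ h0 hd)⟩

end Pool.Agent.Results.MP_97f789_ag.BoundedBrauerGroups
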