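import Mathlib
import Pool.Agent.N181.TC.Hundred

/-!
# The Tate conjecture at 2 for 100% of the pullbacks of every rational elliptic surface with full level two
# and six rational fibres of type `I₂`, over all number fields and finitely generated fields of
# characteristic different from 2 and all their extensions with solvable constants

Let `R` be an integrally closed domain which is finitely generated as a ring and not a field, with
`2 ≠ 0` in `R`, and `k` its field of fractions. (Each number field and each infinite finitely generated field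
of characteristic different from 2 is the field of fractions of such an `R`.)

Let `E₀ : y² = x (x - a) (x - b)` be an elliptic curve over `k(s)`, `a`, `b` polynomials of degree at most `2`
such that `a b (a - b)` is separable of degree at least five (`Full2`), and a product of linear polynomials
(`Base`): the rational elliptic surfaces with full level two and six fibres of type `I₂` over rational points (one
of them is the point at infinity if the degree is five). NOTHING is assumed on the points of `E₀`; over the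
algebraic closure the rank is two, over `k(s)` it is 0, 1 or 2.

For polynomials `q`, `r` over `k` of degree at most `n` let `E` be the pullback of `E₀` by `s = q(t) / r(t)`, the
curve `y² = x (x - a') (x - b')`, `a' = ∑ a_i q^i r^(2 - i)`, `b' = ∑ b_i q^i r^(2 - i)` (`surfF`), the generic
fibre of an elliptic surface over the projective line. Its geometric genus tends to infinity with `n`.

The forms of the bad places (`FormF`) are the polynomials `q - ξ r` for the roots `ξ` of `a b (a - b)`, and
`r` if the degree of `a b (a - b)` is five. Call `(q, r)` good (for `E₀`, of degree `n`) if `q`, `r` are coprime,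
all the six forms are irreducible of degree `n` and separable, and for EVERY extension field `L` of `k` (for
example `L = k`) with a separable closure `L'` the following holds.

(A) If the elements of `L` which are separable algebraic over `k` lie in a normal extension `M` of `k` in
`L'` such that none of the forms splits into linear factors over `M`, then the Tate conjecture for divisors
at the prime 2 holds for the surface over `L` (`TateQ 2`): for the classes in `V₂ Sel(E / L'(t))` which are fixed
by the Galois group there is `N > 0` such that `N` times the class comes from `E(L(t))`.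

(B) The same is true if for each element of `L` which is separable algebraic over `k` the Galois group of
its minimal polynomial over `k` is solvable.

Theorem. Let `n ≥ 5` be odd.

(1) For every `η > 0`, every `μ` and every `D ≠ 0` in `R` there is an ideal `M` of `R` with finite quotient
such that for EVERY base `E₀` whose roots `ξ` as above are among `ρ₁ / D`, ..., `ρ_μ / D` with `ρ_i` in `R`
there is a set of residue classes modulo `M` of pairs `(q, r)` over `R` of degree at most `n`, with proportion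
at least `1 - η`, such that EVERY pair over `R` in one of these residue classes is good for `E₀`.

(2) If `B 0`, `B 1`, ... is a sequence of nonempty finite sets of pairs over `R` of degree at most `n` which is
equidistributed modulo each ideal of `R` with finite quotient, then for every base the proportion of the
good pairs in `B i` tends to `1`.

(3), (4) The same for the pullbacks by polynomials `s = h(t)` of degree at most `n`, for the bases with six
finite bad places.

The proof. For linear factors `a₁ | a`, `b₁ | b`, `d₁ | a - b` there is a constant `c` such that `c b₁ - a₂` and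
`c a₁ - b₂` are multiples of `d₁` (`a = a₁ a₂`, `b = b₁ b₂`); over two quadratic extensions of the constants
this gives linear polynomials `p`, `q₀`, `r₀` with `a = p² - q₀²`, `b = p² - r₀²`, `p = α q₀ + β r₀`, and two
independent points. Over this extension `M` of `L` the forms stay irreducible: over `L` each cycle of length
five of the roots of a form comes from an automorphism (the Galois groups over `k` are the full symmetric
groups and the alternating groups are simple), and this is inherited by quadratic extensions. There are then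
at most `2⁴` classes allowed by the local conditions, as many as come from the points, by the criterion
`Pool.Agent.TH115.GD.rank2` in terms of the six forms. This gives the Tate conjecture over `M(t)`, and then
over `L(t)`. The symmetric Galois groups come from Frobenius elements at maximal ideals of `R`, for `q`, `r`,
and `D q - ρ_i r`, and a sieve over the maximal ideals of `R`.
-/

namespace Pool.Agent.Results.MP_97f789_ag.FullLevelTwoPullbacks

open Polynomial Pool.Agent.TH115.GD Pool.Agent.N181 Pool.Agent.N181.P3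
  Pool.Agent.N181.TC Filter Topology
open Pool.Agent.N181.P8 (TateQ)
open scoped Classical

/-- A rational elliptic surface `y² = x (x - a) (x - b)` with six fibres of type `I₂` over rational
points. -/
structure Base {k : Type} [Field k] (a b : k[X]) : Prop where
  rat : Full2 a b
  spl : (a * b * (a - b)).Splits

/-- The polynomial over `k` with the coefficients `c`. -/
noncomputable def poly {R : Type} [CommRing R] (k : Type) [Field k] [Algebra R k] {r : ℕ}
    (c : Fin r → R) : k[X] :=
  ∑ j : Fin r, C (algebraMap R k (c j)) * X ^ (j : ℕ)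

/-- The pairs of coefficient vectors of polynomials of degree at most `n`. -/
abbrev Pairs (n : ℕ) (R : Type) : Type := (Fin (n + 1) → R) × (Fin (n + 1) → R)

/-- The conclusion over `L` (`L'` is a separable closure of `L`, `K = L(t)`, `F = L'(t)`), for the
pullback of the base `(a, b)` by `q / r`. -/
def HoldsOver {k : Type} [Field k] (a b q r : k[X]) (L L' K F : Type) [Field L] [Field L']
    [Algebra L L'] [Field K] [Algebra L[X] K] [Field F] [Algebra L'[X] F] [IsFractionRing L'[X] F]
    [Algebra K F] [Algebra k L] : Prop :=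
  TateQ (F := F) 2 L' (surfF K (q.map (algebraMap k L)) (r.map (algebraMap k L))
    (a.map (algebraMap k L)) (b.map (algebraMap k L)))

/-- The good pairs. -/
structure Good (k : Type) [Field k] (n : ℕ) (a b q r : k[X]) : Prop where
  cop : IsCoprime q r
  fib : ∀ f, FormF a b q r f → Irreducible f ∧ f.natDegree = n ∧ f.Separable
  tate : ∀ (L L' K F : Type) [Field L] [Field L'] [Algebra L L'] [Field K] [Algebra L[X] K]
    [Field F] [Algebra L'[X] F] [IsFractionRing L'[X] F] [Algebra K F]
    [Algebra k L] [Algebra k L'] [IsScalarTower k L L'], IsTower L L' K F →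
      ∀ M : IntermediateField k L', Normal k M →
        (∀ x : L, IsSeparable k x → algebraMap L L' x ∈ M) →
        (∀ f, FormF a b q r f → ¬ (f.map (algebraMap k M)).Splits) →
        HoldsOver a b q r L L' K F
  solv : ∀ (L L' K F : Type) [Field L] [Field L'] [Algebra L L'] [Field K] [Algebra L[X] K]
    [Field F] [Algebra L'[X] F] [IsFractionRing L'[X] F] [Algebra K F]
    [Algebra k L] [Algebra k L'] [IsScalarTower k L L'], IsTower L L' K F →
      (∀ x : L, IsSeparable k x → Group.IsSolvable (minpoly k x).Gal) →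
        HoldsOver a b q r L L' K F

/-- The pair `y` over `R` is in the residue class `z`. -/
def InClass {R : Type} [CommRing R] {n : ℕ} {M : Ideal R} (y : Pairs n R)
    (z : Pairs n (R ⧸ M)) : Prop :=
  (∀ j, Ideal.Quotient.mk M (y.1 j) = z.1 j) ∧ (∀ j, Ideal.Quotient.mk M (y.2 j) = z.2 j)

/-- A sequence of finite sets of pairs which is equidistributed modulo each ideal with finite
quotient. -/
def Equidistributed {R : Type} [CommRing R] {n : ℕ} (B : ℕ → Finset (Pairs n R)) : Prop :=
  ∀ M : Ideal R, Finite (R ⧸ M) → ∀ z : Pairs n (R ⧸ M),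
    Tendsto (fun i => (((B i).filter (fun y => InClass y z)).card : ℝ) / ((B i).card : ℝ)) atTop
      (𝓝 (1 / (Nat.card (Pairs n (R ⧸ M)) : ℝ)))

/-- The vector `y` over `R` is in the residue class `z`. -/
def InClass₁ {R : Type} [CommRing R] {n : ℕ} {M : Ideal R} (y : Fin (n + 1) → R)
    (z : Fin (n + 1) → R ⧸ M) : Prop :=
  ∀ j, Ideal.Quotient.mk M (y j) = z j

/-- A sequence of finite sets of vectors which is equidistributed modulo each ideal with finite
quotient. -/
def Equidistributed₁ {R : Type} [CommRing R] {n : ℕ} (B : ℕ → Finset (Fin (n + 1) → R)) : Prop :=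
  ∀ M : Ideal R, Finite (R ⧸ M) → ∀ z : Fin (n + 1) → R ⧸ M,
    Tendsto (fun i => (((B i).filter (fun y => InClass₁ y z)).card : ℝ) / ((B i).card : ℝ)) atTop
      (𝓝 (1 / (Nat.card (Fin (n + 1) → R ⧸ M) : ℝ)))

/-- The roots of `a b (a - b)` are among the `ρ_i / D`. -/
def RootsIn {R k : Type} [CommRing R] [Field k] [Algebra R k] (D : R) {μ : ℕ} (ρ : Fin μ → R)
    (a b : k[X]) : Prop :=
  ∀ ξ : k, (a * b * (a - b)).IsRoot ξ → ∃ i, algebraMap R k (ρ i) = algebraMap R k D * ξ

/-- The vector of all the coefficients. -/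
def toV {n : ℕ} {R : Type} (z : Pairs n R) : Fin (n + 1) ⊕ Fin (n + 1) → R := Sum.elim z.1 z.2

theorem toV_inj {n : ℕ} {R : Type} : Function.Injective (toV (n := n) (R := R)) := by
  rintro ⟨a, b⟩ ⟨a', b'⟩ h
  exact Prod.ext (funext fun j => congrFun h (Sum.inl j)) (funext fun j => congrFun h (Sum.inr j))

theorem toV_surj {n : ℕ} {R : Type} (y : Fin (n + 1) ⊕ Fin (n + 1) → R) :
    ∃ z : Pairs n R, toV z = y := by
  refine ⟨(fun j => y (Sum.inl j), fun j => y (Sum.inr j)), ?_⟩
  funext j
  rcases j with j | j <;> rfl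

theorem inClass_iff {R : Type} [CommRing R] {n : ℕ} {M : Ideal R} (y : Pairs n R)
    (z : Pairs n (R ⧸ M)) :
    InClass y z ↔ ∀ j, Ideal.Quotient.mk M (toV y j) = toV z j := by
  constructor
  · rintro ⟨h1, h2⟩ (j | j)
    · exact h1 j
    · exact h2 j
  · intro h
    exact ⟨fun j => h (Sum.inl j), fun j => h (Sum.inr j)⟩

section good

open Pool.Agent.X243.Gen (FF FF_unit)
open Pool.Agent.Y160.T3 (bF)

variable {k : Type} [Field k]

theorem good_of_FF {n : ℕ} {a b q r : k[X]} (hB : Base a b) (h5 : 5 ≤ n) (h2 : ¬ 2 ∣ n)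
    (hco : IsCoprime q r) (hf : ∀ f, FormF a b q r f → FF n f) : Good k n a b q r where
  cop := hco
  fib := fun f h => ⟨(hf f h).1.1, (hf f h).1.2, (hf f h).2.1⟩
  tate := by
    intro L L' K F _ _ _ _ _ _ _ _ _ _ _ _ hT M hMn hM hns
    exact mainF hT hB.rat hB.spl h5 h2 hco hf M hM hns
  solv := by
    intro L L' K F _ _ _ _ _ _ _ _ _ _ _ _ hT hM
    exact mainF_solv hT hB.rat hB.spl h5 h2 hco hf hM

variable {R : Type} [CommRing R] [IsDomain R] [IsIntegrallyClosed R] [IsNoetherianRing R]
  [Algebra R k] [IsFractionRing R k]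

theorem good_pair {n μ : ℕ} {a b : k[X]} (hB : Base a b) (h5 : 5 ≤ n) (h2 : ¬ 2 ∣ n)
    {D : R} (hD : D ≠ 0) {ρ : Fin μ → R} (hρ : RootsIn D ρ a b) {z : Pairs n R}
    (h : ∀ s : Option (Idx μ × Fin 3), ∃ p ∈ Zq R (2 * n + 2) D,
      (fun j => Ideal.Quotient.mk p (toV z j)) ∈
        Pool.Agent.X243.Gen.Lev n (cl D) (cm ρ) none (some none) s p) :
    Good k n a b (poly k z.1) (poly k z.2) := by
  obtain ⟨f1, f2, f3, f4⟩ := linQ (k := k) (by omega : 3 ≤ n) (y := toV z) h
    (poly k z.1) (poly k z.2)
    (Pool.Agent.X243.Tate.bF_map (algebraMap R k) z.1).symm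
    (Pool.Agent.X243.Tate.bF_map (algebraMap R k) z.2).symm
  have hd' : algebraMap R k D ≠ 0 := (map_ne_zero_iff _ (IsFractionRing.injective R k)).2 hD
  refine good_of_FF hB h5 h2 f4 ?_
  rintro f (⟨ξ, hξ, rfl⟩ | ⟨-, rfl⟩)
  · obtain ⟨i, hi⟩ := hρ ξ hξ
    apply FF_unit hd'
    have := f3 i
    have e : C (algebraMap R k D) * (poly k z.1 - C ξ * poly k z.2) =
        C (algebraMap R k D) * poly k z.1 - C (algebraMap R k (ρ i)) * poly k z.2 := by
      rw [hi, C_mul]; ring
    rw [e]
    exact this
  · exact f2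

theorem good_poly {n μ : ℕ} {a b : k[X]} (hB : Base a b) (h6 : 6 ≤ (a * b * (a - b)).natDegree)
    (h5 : 5 ≤ n) (h2 : ¬ 2 ∣ n)
    {D : R} (hD : D ≠ 0) {ρ : Fin μ → R} (hρ : RootsIn D ρ a b) {z : Fin (n + 1) → R}
    (h : ∀ i : Fin μ × Fin 3, ∃ p ∈ Zq R (2 * n + 2) D, (fun j => Ideal.Quotient.mk p (z j)) ∈
      Pool.Agent.X243.Gen.Aev n (fun _ => D) (fun i j => if j = 0 then -(ρ i) else 0) i p) :
    Good k n a b (poly k z) 1 := by
  have hd' : algebraMap R k D ≠ 0 := (map_ne_zero_iff _ (IsFractionRing.injective R k)).2 hD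
  have key : ∀ ξ : k, (a * b * (a - b)).IsRoot ξ → FF n (poly k z - C ξ * 1) := by
    intro ξ hξ
    obtain ⟨i, hi⟩ := hρ ξ hξ
    apply FF_unit hd'
    have := affQ (k := k) (by omega : 3 ≤ n) h i (q := poly k z)
      (Pool.Agent.X243.Tate.bF_map (algebraMap R k) z).symm
    have e : C (algebraMap R k D) * (poly k z - C ξ * 1) =
        C (algebraMap R k D) * poly k z - C (algebraMap R k (ρ i)) := by
      rw [hi, C_mul]; ring
    rw [e]
    exact this
  refine good_of_FF hB h5 h2 isCoprime_one_right ?_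
  rintro f (⟨ξ, hξ, rfl⟩ | ⟨h7, -⟩)
  · exact key ξ hξ
  · omega

end good

section density

variable (R k : Type) [CommRing R] [IsDomain R] [IsIntegrallyClosed R] [Algebra.FiniteType ℤ R]
  [Field k] [Algebra R k] [IsFractionRing R k]

/-- The congruences for pairs. -/
theorem densPair (hR : ¬ IsField R) {n : ℕ} (hn : 5 ≤ n) (h2 : ¬ 2 ∣ n) (μ : ℕ) {D : R}
    (hD : D ≠ 0) (η : ℝ) (hη : 0 < η) :
    ∃ M : Ideal R, Finite (R ⧸ M) ∧ ∀ (a b : k[X]), Base a b →
      (∃ ρ : Fin μ → R, RootsIn D ρ a b) →
      (1 - η) * (Nat.card (R ⧸ M) : ℝ) ^ (Fintype.card (Fin (n + 1) ⊕ Fin (n + 1))) ≤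
        (({x : Fin (n + 1) ⊕ Fin (n + 1) → R ⧸ M | ∀ y : Pairs n R,
          (∀ j, Ideal.Quotient.mk M (toV y j) = x j) →
          Good k n a b (poly k y.1) (poly k y.2)}.ncard : ℕ) : ℝ) := by
  have : IsNoetherianRing R := Algebra.FiniteType.isNoetherianRing ℤ R
  obtain ⟨M, hM, hd⟩ := densQ R hR (μ := μ) (N := n) (by omega) hD η hη
  have := hM
  refine ⟨M, hM, ?_⟩
  rintro a b hB ⟨ρ, hρ⟩
  refine (hd ρ).trans ?_
  have h3' : ∀ S T : Set (Fin (n + 1) ⊕ Fin (n + 1) → R ⧸ M), S ⊆ T →
      ((S.ncard : ℕ) : ℝ) ≤ ((T.ncard : ℕ) : ℝ) := fun S T h => by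
    exact_mod_cast Set.ncard_le_ncard h (Set.toFinite _)
  apply h3'
  intro x hx y hy
  refine good_pair hB hn h2 hD hρ (fun s => ?_)
  obtain ⟨p, hp, hp'⟩ := hx s
  exact ⟨p, hp, hp' (toV y) hy⟩

/-- The congruences for polynomials. -/
theorem densPoly (hR : ¬ IsField R) {n : ℕ} (hn : 5 ≤ n) (h2 : ¬ 2 ∣ n) (μ : ℕ) {D : R}
    (hD : D ≠ 0) (η : ℝ) (hη : 0 < η) :
    ∃ M : Ideal R, Finite (R ⧸ M) ∧ ∀ (a b : k[X]), Base a b → 6 ≤ (a * b * (a - b)).natDegree →
      (∃ ρ : Fin μ → R, RootsIn D ρ a b) →
      (1 - η) * (Nat.card (R ⧸ M) : ℝ) ^ (Fintype.card (Fin (n + 1))) ≤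
        (({z : Fin (n + 1) → R ⧸ M | ∀ y : Fin (n + 1) → R, InClass₁ y z →
          Good k n a b (poly k y) 1}.ncard : ℕ) : ℝ) := by
  have : IsNoetherianRing R := Algebra.FiniteType.isNoetherianRing ℤ R
  obtain ⟨M, hM, hd⟩ := densP R hR (μ := μ) (N := n) (by omega) hD η hη
  have := hM
  refine ⟨M, hM, ?_⟩
  rintro a b hB h6 ⟨ρ, hρ⟩
  refine (hd ρ).trans ?_
  have h3' : ∀ S T : Set (Fin (n + 1) → R ⧸ M), S ⊆ T →
      ((S.ncard : ℕ) : ℝ) ≤ ((T.ncard : ℕ) : ℝ) := fun S T h => by
    exact_mod_cast Set.ncard_le_ncard h (Set.toFinite _)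
  apply h3'
  intro x hx y hy
  refine good_poly hB h6 hn h2 hD hρ (fun s => ?_)
  obtain ⟨p, hp, hp'⟩ := hx s
  exact ⟨p, hp, hp' y hy⟩

variable {R k}

omit [IsIntegrallyClosed R] [Algebra.FiniteType ℤ R] in
/-- A common denominator of the roots. -/
theorem exists_roots {a b : k[X]} (hne : a * b * (a - b) ≠ 0) :
    ∃ (D : R) (μ : ℕ) (ρ : Fin μ → R), D ≠ 0 ∧ RootsIn D ρ a b := by
  obtain ⟨D, hD⟩ := IsLocalization.exist_integer_multiples_of_finset (nonZeroDivisors R)
    ((a * b * (a - b)).roots.toFinset)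
  have hD0 : (D : R) ≠ 0 := nonZeroDivisors.ne_zero D.2
  obtain ⟨m, e⟩ : ∃ m, m = ((a * b * (a - b)).roots.toFinset).card := ⟨_, rfl⟩
  let φ : Fin m ≃ {x // x ∈ (a * b * (a - b)).roots.toFinset} :=
    (finCongr e).trans ((a * b * (a - b)).roots.toFinset).equivFin.symm
  have hint : ∀ i : Fin m, ∃ c : R, algebraMap R k c = algebraMap R k (D : R) * (φ i).1 := by
    intro i
    obtain ⟨c, hc⟩ := hD (φ i).1 (φ i).2
    refine ⟨c, hc.trans ?_⟩
    rw [Algebra.smul_def]
  choose ρ hρ using hint
  refine ⟨D, m, ρ, hD0, fun ξ hξ => ?_⟩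
  have hmem : ξ ∈ (a * b * (a - b)).roots.toFinset := by
    rw [Multiset.mem_toFinset]
    exact (mem_roots hne).2 hξ
  refine ⟨φ.symm ⟨ξ, hmem⟩, ?_⟩
  rw [hρ, Equiv.apply_symm_apply]

end density

theorem result :
    ∀ (R k : Type) [CommRing R] [IsDomain R] [IsIntegrallyClosed R] [Algebra.FiniteType ℤ R]
      [Field k] [Algebra R k] [IsFractionRing R k], ¬ IsField R → (2 : R) ≠ 0 →
      ∀ n : ℕ, 5 ≤ n → ¬ 2 ∣ n →
        (∀ (μ : ℕ) (D : R), D ≠ 0 → ∀ η : ℝ, 0 < η → ∃ M : Ideal R, Finite (R ⧸ M) ∧
          ∀ (a b : k[X]), Base a b → (∃ ρ : Fin μ → R, RootsIn D ρ a b) →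
            (1 - η) * (Nat.card (Pairs n (R ⧸ M)) : ℝ) ≤
              (({z : Pairs n (R ⧸ M) | ∀ y : Pairs n R, InClass y z →
                Good k n a b (poly k y.1) (poly k y.2)}.ncard : ℕ) : ℝ)) ∧
        (∀ B : ℕ → Finset (Pairs n R), (∀ i, (B i).Nonempty) → Equidistributed B →
          ∀ (a b : k[X]), Base a b →
            Tendsto (fun i => (((B i).filter (fun y =>
                Good k n a b (poly k y.1) (poly k y.2))).card : ℝ) /
              ((B i).card : ℝ)) atTop (𝓝 1)) ∧
        (∀ (μ : ℕ) (D : R), D ≠ 0 → ∀ η : ℝ, 0 < η → ∃ M : Ideal R, Finite (R ⧸ M) ∧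
          ∀ (a b : k[X]), Base a b → 6 ≤ (a * b * (a - b)).natDegree →
            (∃ ρ : Fin μ → R, RootsIn D ρ a b) →
            (1 - η) * (Nat.card (Fin (n + 1) → R ⧸ M) : ℝ) ≤
              (({z : Fin (n + 1) → R ⧸ M | ∀ y : Fin (n + 1) → R, InClass₁ y z →
                Good k n a b (poly k y) 1}.ncard : ℕ) : ℝ)) ∧
        (∀ B : ℕ → Finset (Fin (n + 1) → R), (∀ i, (B i).Nonempty) → Equidistributed₁ B →
          ∀ (a b : k[X]), Base a b → 6 ≤ (a * b * (a - b)).natDegree →
            Tendsto (fun i => (((B i).filter (fun y =>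
                Good k n a b (poly k y) 1)).card : ℝ) / ((B i).card : ℝ)) atTop (𝓝 1)) := by
  intro R k _ _ _ _ _ _ _ hR _ n hn hn2
  have : IsNoetherianRing R := Algebra.FiniteType.isNoetherianRing ℤ R
  have hcard : ∀ (M : Ideal R), (Nat.card (Pairs n (R ⧸ M)) : ℝ) =
      (Nat.card (R ⧸ M) : ℝ) ^ (Fintype.card (Fin (n + 1) ⊕ Fin (n + 1))) := by
    intro M
    rw [Nat.card_congr (Equiv.ofBijective _ ⟨toV_inj (n := n) (R := R ⧸ M), toV_surj⟩),
      Nat.card_fun, Nat.card_eq_fintype_card (α := Fin (n + 1) ⊕ Fin (n + 1))]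
    push_cast
    rfl
  have hcard₁ : ∀ (M : Ideal R), (Nat.card (Fin (n + 1) → R ⧸ M) : ℝ) =
      (Nat.card (R ⧸ M) : ℝ) ^ (Fintype.card (Fin (n + 1))) := by
    intro M
    rw [Nat.card_fun, Nat.card_eq_fintype_card (α := Fin (n + 1))]
    push_cast
    rfl
  refine ⟨?_, ?_, ?_, ?_⟩
  · intro μ D hD η hη
    obtain ⟨M, hM, hd⟩ := densPair R k hR hn hn2 μ hD η hη
    have := hM
    refine ⟨M, hM, fun a b hB hρ => ?_⟩
    rw [hcard]
    refine (hd a b hB hρ).trans ?_
    rw [← Set.ncard_image_of_injective _ (toV_inj (R := R ⧸ M) (n := n))]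
    have h5 : ∀ S T : Set (Fin (n + 1) ⊕ Fin (n + 1) → R ⧸ M), S ⊆ T →
        ((S.ncard : ℕ) : ℝ) ≤ ((T.ncard : ℕ) : ℝ) := fun S T h => by
      exact_mod_cast Set.ncard_le_ncard h (Set.toFinite _)
    apply h5
    intro x hx
    obtain ⟨z, rfl⟩ := toV_surj x
    exact ⟨z, fun y hy => hx y ((inClass_iff y z).1 hy), rfl⟩
  · intro B hB heq a b hbase
    obtain ⟨D, μ, ρ, hD, hρ⟩ := exists_roots (R := R) hbase.rat.sep.ne_zero
    obtain ⟨S, hS⟩ : ∃ S : Set (Fin (n + 1) ⊕ Fin (n + 1) → R),
        S = {x | ∃ z : Pairs n R, toV z = x ∧ Good k n a b (poly k z.1) (poly k z.2)} :=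
      ⟨_, rfl⟩
    have hSmem : ∀ y : Pairs n R, toV y ∈ S ↔ Good k n a b (poly k y.1) (poly k y.2) := by
      intro y
      rw [hS]
      constructor
      · rintro ⟨z, hz, hg⟩
        rwa [toV_inj hz] at hg
      · intro hg
        exact ⟨y, rfl, hg⟩
    have key : ∀ η : ℝ, 0 < η → ∃ M : Ideal R, Finite (R ⧸ M) ∧
        (1 - η) * (Nat.card (R ⧸ M) : ℝ) ^ (Fintype.card (Fin (n + 1) ⊕ Fin (n + 1))) ≤
          (({x : Fin (n + 1) ⊕ Fin (n + 1) → R ⧸ M | ∀ y : Fin (n + 1) ⊕ Fin (n + 1) → R,
            (∀ j, Ideal.Quotient.mk M (y j) = x j) → y ∈ S}).ncard : ℝ) := by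
      intro η hη
      obtain ⟨M, hM, hd⟩ := densPair R k hR hn hn2 μ hD η hη
      have := hM
      refine ⟨M, hM, (hd a b hbase ⟨ρ, hρ⟩).trans ?_⟩
      have h5 : ∀ S T : Set (Fin (n + 1) ⊕ Fin (n + 1) → R ⧸ M), S ⊆ T →
          ((S.ncard : ℕ) : ℝ) ≤ ((T.ncard : ℕ) : ℝ) := fun S T h => by
        exact_mod_cast Set.ncard_le_ncard h (Set.toFinite _)
      apply h5
      intro x hx y hy
      obtain ⟨z, rfl⟩ := toV_surj y
      rw [hSmem]
      exact hx z hy
    have hinj : Function.Injective (toV (R := R) (n := n)) := toV_inj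
    have hc : ∀ (i : ℕ) (P : (Fin (n + 1) ⊕ Fin (n + 1) → R) → Prop) [DecidablePred P]
        (Q : Pairs n R → Prop) [DecidablePred Q], (∀ y, P (toV y) ↔ Q y) →
        (((B i).map ⟨toV, hinj⟩).filter P).card = ((B i).filter Q).card := by
      intro i P _ Q _ hPQ
      rw [Finset.filter_map, Finset.card_map]
      congr 1
      ext y
      rw [Finset.mem_filter, Finset.mem_filter]
      exact and_congr_right fun _ => hPQ y
    have hlim := Pool.Agent.X243.Gen.tendsto_of_dens S key (fun i => (B i).map ⟨toV, hinj⟩)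
      (fun i => (hB i).map) (by
        intro M hM x
        obtain ⟨z, rfl⟩ := toV_surj x
        have h1 := heq M hM z
        rw [hcard] at h1
        refine h1.congr fun i => ?_
        rw [Finset.card_map, hc i _ (fun y => InClass y z) (fun y => (inClass_iff y z).symm)])
    refine hlim.congr fun i => ?_
    rw [Finset.card_map, hc i _ (fun y => Good k n a b (poly k y.1) (poly k y.2)) hSmem]
  · intro μ D hD η hη
    obtain ⟨M, hM, hd⟩ := densPoly R k hR hn hn2 μ hD η hη
    refine ⟨M, hM, fun a b hB h6 hρ => ?_⟩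
    rw [hcard₁]
    exact hd a b hB h6 hρ
  · intro B hB heq a b hbase h6
    obtain ⟨D, μ, ρ, hD, hρ⟩ := exists_roots (R := R) hbase.rat.sep.ne_zero
    exact Pool.Agent.X243.Gen.tendsto_of_dens
      {y : Fin (n + 1) → R | Good k n a b (poly k y) 1} (fun η hη => by
        obtain ⟨M, hM, hd⟩ := densPoly R k hR hn hn2 μ hD η hη
        exact ⟨M, hM, hd a b hbase h6 ⟨ρ, hρ⟩⟩) B hB (by
        intro M hM x
        have h1 := heq M hM x
        rw [hcard₁] at h1
        refine h1.congr fun i => ?_
        congr!)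

end Pool.Agent.Results.MP_97f789_ag.FullLevelTwoPullbacks
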