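import Mathlib
import Pool.Agent.N140.RO.Two
import Pool.Agent.N140.RO.Cnt

/-!
# The Tate conjecture at 2 along random orbits in the family of all elliptic surfaces with a section of
# order two, over all number fields at the same time

Let `K` be a number field, `ω` a basis of its ring of integers. Every elliptic curve over `K(t)` with a
rational point of order two has an equation

`E : y² = x (x² + a x + b)`

with polynomials `a`, `b`; we consider `a` of degree at most `m` and `b` of degree at most `N`, with
coefficients in the ring of integers, where `2 m ≤ N` and `N ≥ 5`. The coordinates of the coefficients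
form a vector `c` of `r` integers. The pair `(a, b)` is good over a finite extension field `k'` of `K`
(`GoodOver`) if `b` and `a² - 4 b` are irreducible of degree `N` over `k'`, and for EVERY extension field `L`
of `k'` such that for each element of `L` which is algebraic over `k'` the Galois group of its minimal
polynomial over `k'` is solvable (for example `L = k'`, or more generally if the elements of `L` which
are algebraic over `k'` are in a normal extension `M` of `k'` over which neither `b` nor `a² - 4 b` splits
into linear factors), and for EVERY constant `e ≠ 0` of `L`, the twist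
`E_e : y² = x (x² + e a x + e² b)` over `L(t)` has the following properties:

(i) the Tate conjecture for divisors at the prime 2 holds (`TateAtTwo`): the classes in
`V₂ Sel(E_e / L'(t))`, `L'` a separable closure of `L`, which are fixed by the Galois group come from
`E_e(L(t))`;

(ii) every point of `E_e(L(t))` is the sum of a point of order at most two and the double of a point, and if
`E_e(L(t))` is finitely generated, then it is finite;

(iii) the classes of 2-power order in `H¹(L(t), E_e)` which are trivial over the completions of `L(t)` at
all finite places are zero.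

Theorem. (1) For every finite extension `k'` of `K` the set of the integral vectors `c` for which `(a, b)` is
not good over `k'` is pronull: its closure in the product of the `ℤ_p^r`, `p` prime to any given `M`, has
Haar measure zero.

(2) (Random orbits.) Let `s_0, ..., s_m'` be matrices in `SL_r(ℤ)` which generate `SL_r(ℤ/q)` for all `q` prime
to some number. (By strong approximation these are all the finite families which generate a
Zariski dense group; the group may have infinite index in `SL_r(ℤ)`.) Let `v ≠ 0` be an integral vector. For
independent, uniformly chosen indices `w 0, w 1, ...` let `c_n = s_{w (n-1)} ... s_{w 0} v`. For almost all `w` the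
following holds: for ALL finite extensions `k'` of `K` in an algebraic closure the pair `(a, b)` with the
coordinates `c_n` is good over `k'` for all `n` outside a set of density zero.

The coordinates of `c_n` grow exponentially with `n`, so the orbit contains only logarithmically few
of the vectors of a given size.

Proof. Local criterion of helper601 (`MP_17a657_ag.OrderTwoSections`): Frobenius elements at maximal ideals
with three factorization types show that the Galois groups of `b` and `a² - 4 b` over `k'` are the full
symmetric groups. For the parameters over `K` we use the primes of `k'` of degree one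
(`Pool.Agent.N140.RO.Sv`), and then the engine of helpers 24, 123, 195, 300, 543 and 765 for random orbits.
-/

set_option autoImplicit false

namespace Pool.Agent.Results.MP_97f789_ag.RandomOrbits

open Polynomial NumberField MeasureTheory Filter Topology Pool.Agent.N24.RW Pool.Agent.N140.RO
  Pool.Agent.N140.RO.Two

/-- The coordinates of the coefficients of the pair `(a, b)`. -/
abbrev Idx (m N : ℕ) (J : Type) : Type := (Fin (m + 1) ⊕ Fin (N + 1)) × J

section

variable {K : Type} [Field K] {J : Type} [Fintype J] (ω : Module.Basis J ℤ (𝓞 K)) {m N : ℕ}

/-- The polynomial `a` over the ring of integers with the coordinates `c`. -/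
noncomputable def polA (c : Idx m N J → ℤ) : K[X] :=
  ∑ j : Fin (m + 1), C (algebraMap (𝓞 K) K (vec ω c (Sum.inl j))) * X ^ (j : ℕ)

/-- The polynomial `b` over the ring of integers with the coordinates `c`. -/
noncomputable def polB (c : Idx m N J → ℤ) : K[X] :=
  ∑ j : Fin (N + 1), C (algebraMap (𝓞 K) K (vec ω c (Sum.inr j))) * X ^ (j : ℕ)

/-- The pair with the coordinates `c` is good over the extension `E` of `K`. -/
def GoodOver (E : Type) [Field E] [Algebra K E] (c : Idx m N J → ℤ) : Prop :=
  Good E N ((polA ω c).map (algebraMap K E)) ((polB ω c).map (algebraMap K E))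

end

theorem pro {K : Type} [Field K] {J : Type} [Fintype J] (ω : Module.Basis J ℤ (𝓞 K)) {m N : ℕ}
    (hmN : 2 * m ≤ N) (hN : 5 ≤ N) (E : Type) [Field E] [NumberField E] [Algebra K E] :
    ProNull {c : Idx m N J → ℤ | ¬ GoodOver ω E c} := by
  classical
  have hD : (0 : ℝ) < 1 / ((Pool.Agent.X243.Sol.DD N : ℕ) : ℝ) := by
    have h1 : 0 < Pool.Agent.X243.Sol.DD N := by
      have := Pool.Agent.X243.Sol.D3_pos N
      unfold Pool.Agent.X243.Sol.DD
      have h3 : 0 < 4 * N := by omega
      positivity
    have h2 : (0 : ℝ) < ((Pool.Agent.X243.Sol.DD N : ℕ) : ℝ) := by exact_mod_cast h1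
    positivity
  refine proNull_of (σ := Bool × Fin 3) (fun s => {c : Idx m N J → ℤ | ∀ P ∈ Big E (2 * N + 2),
      (fun i => Ideal.Quotient.mk P (algebraMap (𝓞 K) (𝓞 E) (vec ω c i))) ∉
        Pool.Agent.X243.Sol.Gev3 m N s (𝓞 E ⧸ P)}) _ (fun s => ?_) ?_
  · exact pro_sieve t_CRIT ω (2 * N + 2) (fun P => Pool.Agent.X243.Sol.Gev3 m N s (𝓞 E ⧸ P)) hD
      (fun P hP => Pool.Agent.X243.Gen.Gev3_G (by omega : 3 ≤ N) s hP)
  · intro c hc
    by_contra hno
    apply hc
    simp only [Set.mem_ofPred_eq, not_exists, not_forall, not_not] at hno
    set z : Pairs m N (𝓞 E) := (fun j => algebraMap (𝓞 K) (𝓞 E) (vec ω c (Sum.inl j)),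
      fun j => algebraMap (𝓞 K) (𝓞 E) (vec ω c (Sum.inr j))) with hz
    have hzv : toV z = fun i => algebraMap (𝓞 K) (𝓞 E) (vec ω c i) := by
      funext i
      rcases i with j | j <;> rfl
    have h2 : (2 : 𝓞 E) ≠ 0 := two_ne_zero
    have key := good_of (R := 𝓞 E) (k := E) h2 (B := 2 * N + 2) hmN hN (z := z) (fun s => by
      obtain ⟨P, hP, h⟩ := hno s
      refine ⟨P, hP, ?_⟩
      rw [hzv]
      exact h)
    have e1 : poly E z.1 = (polA ω c).map (algebraMap K E) := by
      rw [poly, polA, Polynomial.map_sum]
      refine Finset.sum_congr rfl fun j _ => ?_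
      rw [Polynomial.map_mul, Polynomial.map_pow, map_C, map_X, hz,
        ← IsScalarTower.algebraMap_apply, ← IsScalarTower.algebraMap_apply]
    have e2 : poly E z.2 = (polB ω c).map (algebraMap K E) := by
      rw [poly, polB, Polynomial.map_sum]
      refine Finset.sum_congr rfl fun j _ => ?_
      rw [Polynomial.map_mul, Polynomial.map_pow, map_C, map_X, hz,
        ← IsScalarTower.algebraMap_apply, ← IsScalarTower.algebraMap_apply]
    rw [e1, e2] at key
    exact key

theorem result {K : Type} [Field K] [NumberField K] {J : Type} [Fintype J] [DecidableEq J]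
    (ω : Module.Basis J ℤ (𝓞 K)) {m N : ℕ} (hmN : 2 * m ≤ N) (hN : 5 ≤ N) :
    (∀ (E : Type) [Field E] [NumberField E] [Algebra K E],
      ProNull {c : Idx m N J → ℤ | ¬ GoodOver ω E c}) ∧
    ∀ (W : Walk (Idx m N J)) (v : Idx m N J → ℤ), v ≠ 0 → ∀ᵐ w ∂(words W.m),
      ∀ E : IntermediateField K (AlgebraicClosure K), FiniteDimensional K E →
        Tendsto (fun n : ℕ =>
          (({i : ℕ | i < n ∧ ¬ GoodOver ω E (orb W v w i)}.ncard : ℕ) : ℝ) / (n : ℝ)) atTop (𝓝 0) := by
  have h1 : ∀ (E : Type) [Field E] [NumberField E] [Algebra K E],
      ProNull {c : Idx m N J → ℤ | ¬ GoodOver ω E c} := fun E _ _ _ => pro ω hmN hN E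
  have h2 : 2 ≤ Fintype.card (Idx m N J) := by
    have hJ : 0 < Fintype.card J := by
      have : Nonempty J := ω.index_nonempty
      exact Fintype.card_pos
    rw [Fintype.card_prod, Fintype.card_sum, Fintype.card_fin, Fintype.card_fin]
    calc 2 ≤ (m + 1 + (N + 1)) * 1 := by omega
      _ ≤ (m + 1 + (N + 1)) * Fintype.card J := Nat.mul_le_mul_left _ hJ
  refine ⟨h1, fun W v hv => ?_⟩
  have h3 := ae_all h2 (fun E [Field E] [Algebra K E] c => GoodOver ω E c) h1 W v hv
  exact h3

end Pool.Agent.Results.MP_97f789_ag.RandomOrbits
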