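import Pool.Agent.N650.TH.Many

/-!
# MP_97f789_ag: the Tate conjecture at `p`, with exact rank, for thin sequences of surfaces over all
# number fields, with one set of density zero for all families and fields

Let `p` be a prime, `q = p ^ (s + 1)`, `n ≥ 1`, `D ≥ 2`, `n ≤ r + 1`, `q r < n + D`, `p` prime to `n + D`, and
`R` odd and prime to `p`. For a vector `v` of `n + D + r + 2` integers let `ρ_1, …, ρ_n` be the first
coordinates, `u` monic of degree `D` and `b` of degree at most `r` with the next coordinates as
coefficients, and `c` the last coordinate. For `d ≥ 1` and `M ≥ 1` consider the surface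

  `w ^ q = (x ^ M - ρ_1) ⋯ (x ^ M - ρ_n) u(x ^ M) + (b(x ^ M) + c t ^ (p ^ d)) ^ q`

and the Jacobian `J` of its generic fibre over the line with coordinate `t`; the dimension of `J` is
`(q - 1) ((n + D) M - 1) / 2`, and the geometric genus of the surface is unbounded. The starting result
`Pool.Agent.Results.MP_17a657_ag.AlmostAllManySections` shows that over a given number field with the
roots of unity of order `q` the Tate conjecture for divisors at `p` is true for 100% of the vectors `v` in
the boxes `|v_i| ≤ H`, with rank exactly `n (q - 1)` and trivial `p`-primary part of the Tate-Shafarevich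
group (`ManyWorks`).

Let `P_0, P_1, P_2, …` be an infinite sequence of generalised polynomials `P(m) = ∑ a_x m ^ x` (finitely
many real exponents, real coefficients, depending on `l`) with distinct leading exponents which are
positive and not integers and have positive coefficients; for example `P_l(m) = m ^ (2 l + √2)`.

**Theorem.** There is ONE set `E` of integers of natural density zero, also of relative density zero in
the set of the primes, depending only on the `P_l`, such that for ALL `(p, s, n, D, r, R)` as above, ALL
number fields `k` which contain the roots of unity of order `q` and a `p`-th root of `-1`, and all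
vectors of different indices `σ_i`, the following is true for all but finitely many integers `m` outside
`E` (and so for almost all the primes `m`), where `v_i = ⌊P_{σ_i}(m)⌋`: for ALL `d ≥ 1` and ALL `M` which
divide a power of `R`

1. every class of `V_p` of the Selmer group of `J` over `k^sep(t)` which is fixed by the Galois group
   comes from `J(K)`, `K = k(t)` (the Tate conjecture for divisors at `p` for the surface);
2. the `p`-primary part of the Tate-Shafarevich group of `J` over `K` is zero;
3. `n (q - 1)` elements of `J(K)` are a basis of `J(K)` at `p`: the rank is exactly `n (q - 1)`.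

So the surfaces form one sequence with one parameter `m`, which may be as sparse as `⌊ℓ ^ c⌋`, `ℓ` prime;
the set `E` does not depend on the shape of the equation, the prime `p` or the number field.

Proof. The starting library reduces the conclusions to finitely many tests; each is passed by a positive
proportion of the residues of `v` modulo each large prime `P` which is `1` modulo `p R`, and the tests may
use different primes `P` with `k ⊂ ℚ_P`. By exponential sums the integer parts are jointly
equidistributed modulo all `q ≤ N ^ κ` over the integers and over the primes in `(N, 2 N]`, and Turan's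
sieve (`Pool.Agent.N666.TM`) shows that for almost all `m` each test is passed for some `P`. Up to
isomorphism there are only countably many number fields, and a diagonal argument gives one set.
-/

set_option autoImplicit false

namespace Pool.Agent.Results.MP_97f789_ag.ThinSequences

open Pool.Agent.Y160.SL (ManyWorks)

/-- `c` is the largest exponent of the generalised polynomial `∑ a_x m ^ x`; it is positive and not an
integer and has a positive coefficient. -/
def Admissible (F : Finset ℝ) (a : ℝ → ℝ) (c : ℝ) : Prop :=
  c ∈ F ∧ (∀ x ∈ F, x ≤ c) ∧ 0 < c ∧ (∀ m : ℕ, c ≠ m) ∧ 0 < a c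

/-- The integer part of the value at `m` of the generalised polynomial `P_l`. -/
noncomputable def value (F : ℕ → Finset ℝ) (a : ℕ → ℝ → ℝ) (l m : ℕ) : ℤ :=
  ⌊∑ x ∈ F l, a l x * (m : ℝ) ^ x⌋

/-- `E` has density zero relative to the sets `S N`. -/
def NullIn (S : ℕ → Finset ℕ) (E : Set ℕ) : Prop :=
  ∀ ε : ℝ, 0 < ε → ∃ N₀ : ℕ, ∀ N : ℕ, N₀ ≤ N →
    ({m : ℕ | m ∈ S N ∧ m ∈ E}.ncard : ℝ) ≤ ε * (S N).card

/-- The conclusions 1, 2, 3 for all `d` and `M` are `ManyWorks`; it also says that `x ^ M - ρ_i`,
`u(x ^ M)` and `(∏ (x - ρ_i) u + b ^ q)(x ^ M)` are irreducible over `k`. -/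
theorem result (F : ℕ → Finset ℝ) (a : ℕ → ℝ → ℝ) (c : ℕ → ℝ) (hP : ∀ l, Admissible (F l) (a l) (c l))
    (hc : Function.Injective c) :
    ∃ E : Set ℕ, NullIn (fun N => Finset.Ioc N (2 * N)) E ∧
      NullIn (fun N => (Finset.Ioc N (2 * N)).filter Nat.Prime) E ∧
      ∀ (p s n D r R : ℕ) (_ : p.Prime) (_ : 0 < n) (_ : 2 ≤ D) (_ : n ≤ r + 1)
        (_ : p ^ (s + 1) * r < n + D) (_ : p.Coprime (n + D)) (_ : Odd R) (_ : p.Coprime R)
        (k : Type) [Field k] [NumberField k] (ζ η : k) (_ : IsPrimitiveRoot ζ (p ^ (s + 1)))
        (_ : η ^ p = -1) (σ : Fin (n + (D + (r + 2))) → ℕ) (_ : Function.Injective σ),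
        {m : ℕ | m ∉ E ∧ ¬ ManyWorks p (p ^ (s + 1)) n D r R k (fun i => value F a (σ i) m)}.Finite :=
  Pool.Agent.N650.TH.many hP hc

end Pool.Agent.Results.MP_97f789_ag.ThinSequences
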